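import Pool.Agent.Q60.GU.Final

/-!
# The Hodge realization is full on the tensor category of one motive if it is full in bounded degree

Let `k` be an algebraically closed field with an embedding `σ` into the complex numbers, `M` a motive
over `k` for absolute Hodge cycles which is pure of weight `w` (a direct factor of `h^i(X)(j)` for a
smooth projective variety `X`), `V = H_σ(M)`, `b = dim V`, and let `d` be the maximum of `|p - q|` for
the Hodge types `(p, q)` of `V`. Let `N` be a natural number with

* `N ≥ exp (64 b ^ (2/3) log (2 (b + d)))`, or
* `N ≥ b ^ 3`, if the centre of the algebra of the endomorphisms of the Hodge structure `V` is totally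
  real.

Suppose that `Hom (M^(⊗ m), M^(⊗ n)) → Hom (V^(⊗ m), V^(⊗ n))` (homomorphisms of Hodge structures) is
surjective for all `m, n ≤ N`. Then this map is surjective for all `m, n`, and the Mumford-Tate group
of `V` is the motivic Galois group of `M`: the restriction of `H_σ` to the tannakian category generated
by `M` is fully faithful.

The theorem is proved for an arbitrary polarised pure Hodge structure `V` and an arbitrary algebraic
group `G` over `ℚ` of similitudes of the polarisation which contains the image of `ℂ^×`; the
homomorphisms which come from homomorphisms of motives are those which commute with `G`, the motivic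
Galois group of `M`.
-/

set_option autoImplicit false

namespace Pool.Agent.Results.MP_0da4e0_ag.BoundedTensorDegree

open Matrix Pool.Agent.Q60.GL
open Pool.Agent.Q60.GU (IsLarge)

variable {κ : Type} [Fintype κ] [DecidableEq κ] {w : ℤ}

/-- The properties of the motivic Galois group `G` of a motive with the Hodge realisation `V` and the
polarisation `Q`: it is an algebraic group over `ℚ`, contains the operators `h z` of the Hodge
structure, and consists of similitudes of `Q` (isometries, if the weight is zero). -/
structure IsGroupOfMotive (V : HodgeStructure κ w) (Q : Matrix κ κ ℚ)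
    (G : Set (Matrix κ κ ℂ)) : Prop where
  group : IsQGroup G
  hodge : ∀ z : ℂ, z ≠ 0 → V.h z ∈ G
  sim : ∀ g ∈ G, ∃ c : ℂ, gᵀ * toField ℂ Q * g = c • toField ℂ Q ∧ (w = 0 → c = 1)

/-- **Bounded tensor degree decides**: `HodgeMotivated V G n` says that the homomorphisms of Hodge
structures between the tensor powers of `V` with at most `n` factors commute with `G`. -/
theorem result (V : HodgeStructure κ w) (Q : Matrix κ κ ℚ) (hQ : IsPolarisation V Q)
    (G : Set (Matrix κ κ ℂ)) (hG : IsGroupOfMotive V Q G) (N : ℕ)
    (hN : IsLarge V Q (Fintype.card κ ^ 3) N) :
    List.TFAE [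
      HodgeMotivated V G N,
      ∀ n, HodgeMotivated V G n,
      mumfordTate V.h = G] := by
  have h := Pool.Agent.Q60.GU.full_tfae hQ hG.group hG.hodge hG.sim hN
  tfae_have 2 ↔ 1 := h.out 0 1
  tfae_have 1 ↔ 3 := h.out 1 2
  tfae_finish

end Pool.Agent.Results.MP_0da4e0_ag.BoundedTensorDegree
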