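import Pool.Agent.Q54.HT.Ful
import Pool.Agent.Q54.CU.Smo

/-!
# Hodge classes, absolute Hodge classes and cubic hypersurfaces

For a tensor `T` of format `(M + 1) × (M + 1) × (r + 1)` over the field `k` let `C_T` and `E_T` be the
affine cubic hypersurfaces `∑ T_{abc} x_a y_b z_c = 0` and `∑ T_{abc} x_a y_b z_c = 1`, where
`x_0 = y_0 = 1`, in the affine space of dimension `2 M + r + 1` (`tenO T 0` and `tenO T 1`). We show
that the Hodge realization of the motives for absolute Hodge cycles over `k` is full if and only if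
all Hodge classes in the Borel-Moore homology of the singular hypersurfaces `C_T` are absolute
Hodge, and if and only if this holds for the Hodge classes in `H^(2 c - 1)(E_T, ℚ(c))` for all `c ≥ 1`.
-/

namespace Pool.Agent.Results.MP_0da4e0_ag.CubicHypersurfaces

universe u v w v' w'

open Q54.CU Q54.CC Q54.HT CategoryTheory Limits AlgebraicGeometry

variable {k : Type u} [Field k] {𝓜 : Type w} [Category.{v} 𝓜] [Abelian 𝓜]
  {𝓝 : Type w'} [Category.{v'} 𝓝] [Abelian 𝓝]

/-- The Hodge classes in `H_(2 n + s)(X)(-n)` are absolute Hodge. Here `F` is the forgetful functor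
from the category `𝓜` of mixed realizations over `k` to the category `𝓝` of mixed Hodge structures
and `I` is the unit object: the morphisms `F(I) ⟶ F(h n s X)` are the Hodge classes, the morphisms
`I ⟶ h n s X` are the absolute Hodge classes. -/
def HodgeIsAbsolute (F : 𝓜 ⥤ 𝓝) (I : 𝓜) (h : ℤ → ℤ → SchO k → 𝓜) (n s : ℤ) (X : SchO k) : Prop :=
  Lifts F I (h n s X)

/-- The variety `X` is proper and smooth and there is an affine bundle over `X` with affine total
space. By Jouanolou all smooth projective varieties have these properties. -/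
def IsSmoothProjective (X : SchO k) : Prop :=
  IsVar X ∧ IsProper X.hom ∧ Smooth X.hom ∧ HasAffineTorsor X

/-- The Hodge classes in the homology of `X` are images of Hodge classes in the homology of a smooth
projective variety `Y`. This is known for all quasi-projective `X` (resolution of singularities of a
compactification, strictness of the weight filtration, semisimplicity of polarizable Hodge
structures). -/
def HasResolutions (F : 𝓜 ⥤ 𝓝) (I : 𝓜) (h : ℤ → ℤ → SchO k → 𝓜) : Prop :=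
  ∀ X : SchO k, IsVar X → HasAffineTorsor X → ∃ Y : SchO k, IsSmoothProjective Y ∧
    ∀ n : ℤ, ∃ f : h n 0 Y ⟶ h n 0 X, ∀ g : F.obj I ⟶ F.obj (h n 0 X),
      ∃ g' : F.obj I ⟶ F.obj (h n 0 Y), g' ≫ F.map f = g

/-- The weights of the mixed Hodge structure of `H_(2 n + s)(X)(-n)` are positive if `s < 0`; so it has no
Hodge classes. -/
def HasWeights (F : 𝓜 ⥤ 𝓝) (I : 𝓜) (h : ℤ → ℤ → SchO k → 𝓜) : Prop :=
  ∀ n s X, IsVar X → s < 0 → ∀ g : F.obj I ⟶ F.obj (h n s X), g = 0

/-- **Hodge classes on smooth projective varieties and on cubic hypersurfaces.** -/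
theorem result (F : 𝓜 ⥤ 𝓝) [F.Additive] (I : 𝓜) (h : ℤ → ℤ → SchO k → 𝓜) (hh : IsHomology h)
    (hw : HasWeights F I h) (hr : HasResolutions F I h) :
    List.TFAE
      [∀ X : SchO k, IsSmoothProjective X → ∀ n : ℤ, HodgeIsAbsolute F I h n 0 X,
        ∀ X : SchO k, IsVar X → HasAffineTorsor X → ∀ n : ℤ, HodgeIsAbsolute F I h n 0 X,
        ∀ (M r : ℕ) (T : Fin (M + 1) → Fin (M + 1) → Fin (r + 1) → k) (n : ℤ),
          HodgeIsAbsolute F I h n 0 (tenO T 0),
        ∀ (M r : ℕ) (T : Fin (M + 1) → Fin (M + 1) → Fin (r + 1) → k) (n : ℤ), n < 2 * M + r →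
          HodgeIsAbsolute F I h n 1 (tenO T 1)] ∧
    (∀ X : SchO k, IsVar X → HasAffineTorsor X → ∀ N : ℤ, ∃ (M r c : ℕ)
      (T : Fin (M + 1) → Fin (M + 1) → Fin (r + 1) → k), ∀ n : ℤ, n ≤ N →
        (HodgeIsAbsolute F I h n 0 X ↔ HodgeIsAbsolute F I h (n + c + 1) 0 (tenO T 0)) ∧
          (HodgeIsAbsolute F I h n 0 X ↔ HodgeIsAbsolute F I h (n + c) 1 (tenO T 1))) ∧
    ∀ (M r : ℕ) (T : Fin (M + 1) → Fin (M + 1) → Fin (r + 1) → k),
      IsVar (tenO T 1) ∧ IsAffine (tenO T 1).left ∧ Smooth (tenO T 1).hom := by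
  refine ⟨?_, fun X hX hT N => ?_, fun M r T => ⟨isVar_tenO T 1, isAffine_tenO T 1, smooth_hyp (tq T)⟩⟩
  · tfae_have 1 → 2 := by
      intro h1 X hX hT n g
      obtain ⟨Y, hY, hf⟩ := hr X hX hT
      obtain ⟨f, hf⟩ := hf n
      obtain ⟨g', hg'⟩ := hf g
      obtain ⟨f', hf'⟩ := h1 Y hY n g'
      exact ⟨f' ≫ f, by rw [F.map_comp, hf', hg']⟩
    tfae_have 2 → 1 := fun h1 X hX n => h1 X hX.1 hX.2.2.2 n
    tfae_have 2 → 3 := fun h1 M r T n =>
      h1 _ (isVar_tenO T 0) (hasAffineTorsor_of_affine (isVar_tenO T 0) (isAffine_tenO T 0)) n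
    tfae_have 3 → 2 := by
      intro h1 X hX hT n
      obtain ⟨M, r, c, T, -, hc⟩ := lifts_main hh hw hX hT n
      exact (hc n le_rfl).1.2 (h1 M r T _)
    tfae_have 2 → 4 := fun h1 M r T n hn =>
      lifts_smooth hh (fun X hX ha n => h1 X hX (hasAffineTorsor_of_affine hX ha) n) T hn
    tfae_have 4 → 2 := by
      intro h1 X hX hT n
      obtain ⟨M, r, c, T, hb, hc⟩ := lifts_main hh hw hX hT n
      exact (hc n le_rfl).2.2 (h1 M r T _ hb)
    tfae_finish
  · obtain ⟨M, r, c, T, -, hc⟩ := lifts_main hh hw hX hT N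
    exact ⟨M, r, c, T, hc⟩

end Pool.Agent.Results.MP_0da4e0_ag.CubicHypersurfaces
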