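import Pool.Agent.Q138.PS.VJ
import Pool.Agent.Results.MP_0da4e0_ag.HodgeTuples

/-!
# Hodge classes on `Y^j × ∏ X_{1/t_i}^{r_i}`, ALL complex abelian varieties `Y`, all tuples of integers `t_i` close to `α P(n)`

Let `q ≥ 2`. We consider countably many hypergeometric variations of Hodge structure of rank `2m ≥ 4` with a rational structure,
as in the starting file `HodgeTuples` (for example the mirrors of the Calabi-Yau hypersurfaces in the projective spaces). For
every variation there is a number `G ≥ 1` such that outside a set of real numbers of Hausdorff dimension at most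
`q / (q + 1 / (q 2 ^ (q - 1)))` (that is `8 / 9` for `q = 2`) every `α > 0` has the following property. There is `η > 0` such that
for ALL the variations there is `κ > 0` such that for all large `N` and ALL integral polynomials `P` of degree `q` with positive
leading coefficient and coefficients of size at most `N ^ η`: for all but `N ^ (1 - κ)` of the `n ≤ N`, for ALL `k` and ALL
distinct integers `t_1, …, t_k` in one residue class modulo `G` with `|t_i - ⌊α P(n)⌋| ≤ N ^ κ`, the fibres `V_i` of the
variation at `z = 1 / t_i`, and ALL rational vector spaces `W = ℚ^d` with a grading of `W_ℂ` in which no two degrees differ by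
`2m - 1` (for example the first cohomology of an arbitrary complex abelian variety, graded by the first Hodge index): all
rational tensors of type `p` in `V_{c 1} ⊗ ⋯ ⊗ V_{c r} ⊗ W^{⊗ j}` (all `r`, `c`, `j`, `p`) are combinations of products of the
polarisations of the `V_i` and of rational tensors in `W^{⊗ j}` of the complementary type.
-/

set_option autoImplicit false

namespace Pool.Agent.Results.MP_0da4e0_ag.HodgeWindowsAlongRealMultiples

open Finset Filter Topology
open Pool.Agent.Q138.PS
open HodgeTuples (RationalStructure IsFibre OnlyProducts)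

/-- a hypergeometric variation with a rational structure -/
structure Variation where
  /-- half of the rank -/
  m : ℕ
  /-- the parameters -/
  β : Fin m → ℚ
  /-- the base change from the Frobenius basis to rational coordinates -/
  C : Matrix (Fin (2 * m)) (Fin (2 * m)) ℂ
  /-- the polarisation -/
  A : Matrix (Fin (2 * m)) (Fin (2 * m)) ℚ
  hm : 2 ≤ m
  hβ : ∀ j, 0 < β j ∧ β j < 1
  hC : RationalStructure C A

/-- for all `k`, all distinct `t_1, …, t_k` in `S`, all Hodge structures which are the fibres of the variation at the points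
`z = 1 / t_i` and all spaces `ℚ^d` with a grading `U` of `ℂ^d` in which no two degrees differ by `2m - 1` all tensors are
products -/
def AllProducts (B : Variation) (S : Set ℕ) : Prop :=
  ∀ (k : ℕ) (t : Fin k → ℕ), Function.Injective t → (∀ i, t i ∈ S) →
    ∀ V : Fin k → ℕ → Submodule ℂ (Fin (2 * B.m) → ℂ), (∀ i, IsFibre B.β (t i) B.C B.A (V i)) →
    ∀ (d : ℕ) (U : ℤ → Submodule ℂ (Fin d → ℂ)), DirectSum.IsInternal U →
      (∀ p : ℤ, U p ≠ ⊥ → U (p - (2 * (B.m : ℤ) - 1)) = ⊥) → OnlyProducts B.A V U

theorem mono (B : Variation) (S S' : Set ℕ) (h : S ⊆ S') (h' : AllProducts B S') : AllProducts B S :=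
  fun k t ht htS => h' k t ht fun i => h (htS i)

/-- **Theorem.** -/
theorem result (q : ℕ) (hq : 2 ≤ q) {ι : Type} [Countable ι] (B : ι → Variation) :
    ∃ G : ι → ℕ, (∀ i, 1 ≤ G i) ∧
    ∃ E : Set ℝ, dimH E ≤ ENNReal.ofReal (q / (q + 1 / ((q : ℝ) * 2 ^ (q - 1)))) ∧ ∀ α : ℝ, 0 < α → α ∉ E →
      ∃ η : ℝ, 0 < η ∧ ∀ i : ι,
      ∃ κ : ℝ, 0 < κ ∧ ∀ᶠ N : ℕ in atTop, ∀ P : Polynomial ℤ, P.natDegree = q → 0 < P.leadingCoeff →
        (∀ j, |((P.coeff j : ℤ) : ℝ)| ≤ (N : ℝ) ^ η) →
        (badG (fun S => ∀ a : ℕ, AllProducts (B i) (S ∩ {t | t % G i = a % G i})) ⌊(N : ℝ) ^ κ⌋₊ α P N : ℝ) ≤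
          (N : ℝ) ^ (1 - κ) := by
  classical
  choose G₀ hG₀ using fun i => HodgeTuples.result (B i).hm (B i).β (B i).hβ
  refine ⟨fun i => G₀ i + 1, fun i => Nat.succ_pos _, ?_⟩
  choose E₁ hE₁ using fun i => hG₀ i (G₀ i + 1) (by omega)
  obtain ⟨E, hE, hg⟩ := win_tuples (ι := ι) q hq
    (fun i S => ∀ a : ℕ, AllProducts (B i) (S ∩ {t | t % (G₀ i + 1) = a % (G₀ i + 1)}))
    (fun i S S' hS hS' a => mono _ _ _ (Set.inter_subset_inter_left _ hS) (hS' a))
  refine ⟨E, hE, fun α hα hαE => ?_⟩
  obtain ⟨η, hη, h1⟩ := hg α hα hαE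
  refine ⟨η, hη, fun i => ?_⟩
  obtain ⟨M, c, hc, h2⟩ := step_down (G₀ i + 1) (by omega) (AllProducts (B i)) (mono _) (E₁ i)
    ((B i).m + 2) (fun H t ht => by
      obtain ⟨-, h3⟩ := hE₁ i H t ht
      obtain ⟨S, hS, h4⟩ := h3 (B i).C (B i).A (B i).hC
      refine ⟨S, hS, ?_⟩
      intro k s hs hsS V hV d U hU hU'
      choose u hu1 hu2 hu3 hu4 using hsS
      refine h4 k u (fun a b hab => hs ?_) (fun j => ⟨hu1 j, hu2 j, hu3 j⟩) V (fun j => ?_) d U hU hU'
      · have ha := hu4 a
        have hb := hu4 b
        rw [hab] at ha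
        omega
      · have : t - (G₀ i + 1) * u j = s j := by
          have := hu4 j
          omega
        rw [this]
        exact hV j)
  exact h1 i M c hc h2

end Pool.Agent.Results.MP_0da4e0_ag.HodgeWindowsAlongRealMultiples
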