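import Pool.Agent.Q296.FF.Fin

/-!
# Full faithfulness of the Hodge realisation on the motives of all hypersurfaces

`k` is an algebraically closed field, `σ : k → ℂ` an embedding, `𝓜` the category of motives over `k`
for absolute Hodge cycles. Let `⟨Hyp⟩` be the tannakian subcategory generated by the motives of ALL
smooth projective hypersurfaces over `k`, of all dimensions and all degrees. We prove that
`H_σ` is fully faithful on `⟨Hyp⟩` if and only if the primitive Hodge classes of degree
`dim W` are absolute Hodge on the single hypersurfaces

  `W : f(x_0, …, x_(a+1)) + y_1^d + y_2^d + … + y_(2k)^d = 0`, `a ≤ ω(dim W)`,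

`(dim W, d) ∈ S`, where `S` is any set of pairs with arbitrarily large even dimensions and
arbitrarily divisible degrees, and `ω` is any function which tends to infinity, however slowly: all
morphisms between tensor constructions on several hypersurfaces are controlled by Hodge classes of
middle degree on single hypersurfaces, almost all of whose variables are diagonal.
-/

open CategoryTheory MonoidalCategory

universe v u w v' u'

namespace Pool.Agent.Results.MP_0da4e0_ag.TensorCategoryOfHypersurfaces

open Pool.Agent.Q296.FF

/-- **Full faithfulness of `H_σ` on the tannakian category generated by all hypersurfaces.** Let `T`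
be the category of motives for absolute Hodge cycles over `k`, with the realisation `H_σ` (a braided
tensor functor; it is faithful since morphisms of motives are cohomology classes) and the smooth
hypersurfaces over `k` (`hT`: known facts). Let `S` be a set of pairs `(n, d)` which contains, for all
`N` and `D`, a pair with `n ≥ N` even and `D ∣ d`, and `ω : ℕ → ℕ` a function which tends to infinity.
The following statements are equivalent:

1. for all `W` with `(dim W, deg W) ∈ S` which are iterated suspensions of smooth hypersurfaces `X`
  with `dim X ≤ ω (dim W)`, all primitive Hodge classes of degree `dim W` on `W` are absolute Hodge;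
2. for all tensor products `M` of primitive motives of smooth hypersurfaces, all Hodge classes in
  `H_σ(M)` are absolute Hodge;
3. every morphism of Hodge structures `H_σ(M) ⟶ H_σ(N)`, for `M` and `N` in the tannakian
  subcategory generated by the motives of all smooth hypersurfaces, comes from a morphism `M ⟶ N`. -/
theorem result {𝓜 : Type u} [Category.{v} 𝓜] [Preadditive 𝓜] [MonoidalCategory 𝓜]
    [MonoidalPreadditive 𝓜] [BraidedCategory 𝓜] {𝓗 : Type u'} [Category.{v'} 𝓗] [Preadditive 𝓗]
    [MonoidalCategory 𝓗] [BraidedCategory 𝓗] {T : RealData.{v, u, w, v', u'} 𝓜 𝓗} [T.H.Braided]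
    [T.H.Additive] (hT : T.Facts) (S : Set (ℕ × ℕ)) (hS : EvenCofinal S) (ω : ℕ → ℕ)
    (hω : Filter.Tendsto ω Filter.atTop Filter.atTop) :
    [∀ X W : T.Hyp, T.Smooth X → Relation.ReflTransGen T.Susp X W →
        (T.dim W, T.deg W) ∈ S → T.dim X ≤ ω (T.dim W) → T.MiddleClasses W,
      ∀ (N : ℕ) (M : 𝓜), T.IsProd N M → ∀ i, T.Full (Pool.Agent.Q28.HJ.pow T.L i) M,
      ∀ M N : 𝓜, T.Gen M → T.Gen N → T.Full M N].TFAE :=
  RealData.final hT S hS ω hω

end Pool.Agent.Results.MP_0da4e0_ag.TensorCategoryOfHypersurfaces
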